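import Pool.Agent.H466.HN.Stm5
import Pool.Agent.H466.HP.Asm

/-!
# HN SGB: the exponential sum from its near part and its tail
-/

set_option autoImplicit false

namespace Pool.Agent.H657.HN

open Complex MeasureTheory Set Filter Topology
open Pool.Agent.H862.VK (Yz)
open Pool.Agent.H466.HP Pool.Agent.H466.HN
open Pool.Agent.H328.HP (re_lt zcount smG smQ gw_le)

/-! ### the tent -/

/-- the tent function -/
noncomputable def tn (m h u : ℝ) : ℝ := max 0 (1 - |u - m| / h)

lemma tn_cont (m h : ℝ) : Continuous (tn m h) := by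
  unfold tn
  fun_prop

lemma tn_nonneg (m h u : ℝ) : 0 ≤ tn m h u := le_max_left _ _

lemma tn_le {m h : ℝ} (hh : 0 < h) (u : ℝ) : tn m h u ≤ 1 := by
  unfold tn
  refine max_le zero_le_one ?_
  have : 0 ≤ |u - m| / h := div_nonneg (abs_nonneg _) hh.le
  linarith

lemma tn_left {m h u : ℝ} (hh : 0 < h) (h1 : m - h ≤ u) (h2 : u ≤ m) :
    tn m h u = (u - (m - h)) / h := by
  unfold tn
  have e : |u - m| = m - u := by rw [abs_sub_comm, abs_of_nonneg (by linarith)]
  rw [e]
  have e2 : 1 - (m - u) / h = (u - (m - h)) / h := by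
    field_simp
    ring
  rw [e2, max_eq_right]
  exact div_nonneg (by linarith) hh.le

lemma tn_right {m h u : ℝ} (hh : 0 < h) (h1 : m ≤ u) (h2 : u ≤ m + h) :
    tn m h u = ((m + h) - u) / h := by
  unfold tn
  have e : |u - m| = u - m := abs_of_nonneg (by linarith)
  rw [e]
  have e2 : 1 - (u - m) / h = ((m + h) - u) / h := by
    field_simp
    ring
  rw [e2, max_eq_right]
  exact div_nonneg (by linarith) hh.le

lemma tn_out {m h u : ℝ} (hh : 0 < h) (h1 : u ≤ m - h ∨ m + h ≤ u) : tn m h u = 0 := by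
  unfold tn
  refine max_eq_left ?_
  have h2 : h ≤ |u - m| := by
    rcases h1 with h1 | h1
    · rw [abs_sub_comm]
      exact le_trans (by linarith) (le_abs_self _)
    · exact le_trans (by linarith) (le_abs_self _)
  have : 1 ≤ |u - m| / h := (one_le_div hh).2 h2
  linarith

/-- splitting of the integral over the tent -/
lemma split_int {E : Type*} [NormedAddCommGroup E] [NormedSpace ℝ E] {m h B : ℝ} (hh : 0 < h)
    (h0 : 0 ≤ m - h) (hB : m + h ≤ B) (f : ℝ → E) (hf : Continuous f)
    (hz : ∀ u, u ≤ m - h ∨ m + h ≤ u → f u = 0) :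
    ∫ u in (0 : ℝ)..B, f u = (∫ u in (m - h)..m, f u) + ∫ u in m..(m + h), f u := by
  have i1 : ∫ u in (0 : ℝ)..(m - h), f u = 0 := by
    rw [intervalIntegral.integral_congr (g := fun _ => (0 : E))]
    · simp
    · intro u hu
      rw [uIcc_of_le h0] at hu
      exact hz u (Or.inl hu.2)
  have i2 : ∫ u in (m + h)..B, f u = 0 := by
    rw [intervalIntegral.integral_congr (g := fun _ => (0 : E))]
    · simp
    · intro u hu
      rw [uIcc_of_le hB] at hu
      exact hz u (Or.inr hu.1)
  have hi : ∀ a b : ℝ, IntervalIntegrable f volume a b := fun a b => hf.intervalIntegrable a b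
  rw [← intervalIntegral.integral_add_adjacent_intervals (hi 0 (m - h)) (hi (m - h) B),
    ← intervalIntegral.integral_add_adjacent_intervals (hi (m - h) m) (hi m B),
    ← intervalIntegral.integral_add_adjacent_intervals (hi m (m + h)) (hi (m + h) B), i1, i2]
  simp

lemma int_tn0 {m h B : ℝ} (hh : 0 < h) (h0 : 0 ≤ m - h) (hB : m + h ≤ B) :
    ∫ u in (0 : ℝ)..B, tn m h u = h := by
  rw [split_int hh h0 hB (tn m h) (tn_cont m h) (fun u hu => tn_out hh hu)]
  have e1 : ∫ u in (m - h)..m, tn m h u = h / 2 := by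
    rw [intervalIntegral.integral_congr (g := fun u => (u - (m - h)) / h)]
    · rw [intervalIntegral.integral_eq_sub_of_hasDerivAt
        (f := fun u : ℝ => (u - (m - h)) ^ 2 / (2 * h)) (fun u _ => ?_)
        ((by fun_prop : Continuous fun u : ℝ => (u - (m - h)) / h).intervalIntegrable _ _)]
      · field_simp
        ring
      · have h1 := (((hasDerivAt_id u).sub_const (m - h)).pow 2).div_const (2 * h)
        have e : (((2 : ℕ) : ℝ) * (id u - (m - h)) ^ (2 - 1) * 1) / (2 * h) = (u - (m - h)) / h := by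
          simp only [id]
          field_simp
          norm_num
          ring
        rw [e] at h1
        exact h1
    · intro u hu
      rw [uIcc_of_le (by linarith)] at hu
      exact tn_left hh hu.1 hu.2
  have e2 : ∫ u in m..(m + h), tn m h u = h / 2 := by
    rw [intervalIntegral.integral_congr (g := fun u => ((m + h) - u) / h)]
    · rw [intervalIntegral.integral_eq_sub_of_hasDerivAt
        (f := fun u : ℝ => -(((m + h) - u) ^ 2 / (2 * h))) (fun u _ => ?_)
        ((by fun_prop : Continuous fun u : ℝ => ((m + h) - u) / h).intervalIntegrable _ _)]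
      · field_simp
        ring
      · have h1 := ((((hasDerivAt_id u).const_sub (m + h)).pow 2).div_const (2 * h)).neg
        have e : -((((2 : ℕ) : ℝ) * ((m + h) - id u) ^ (2 - 1) * -1) / (2 * h)) =
            ((m + h) - u) / h := by
          simp only [id]
          field_simp
          norm_num
          ring
        rw [e] at h1
        exact h1
    · intro u hu
      rw [uIcc_of_le (by linarith)] at hu
      exact tn_right hh hu.1 hu.2
  rw [e1, e2]
  ring

lemma int_tn {m h B : ℝ} (hh : 0 < h) (h0 : 0 ≤ m - h) (hB : m + h ≤ B) {s : ℂ} (hs : s ≠ 0) :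
    ∫ u in (0 : ℝ)..B, (tn m h u : ℂ) * cexp (u * s) =
      (cexp ((m - h : ℝ) * s) - 2 * cexp (m * s) + cexp ((m + h : ℝ) * s)) / (h * s ^ 2) := by
  have hhc : (h : ℂ) ≠ 0 := by exact_mod_cast hh.ne'
  have hc : Continuous (fun u : ℝ => (tn m h u : ℂ) * cexp (u * s)) :=
    (continuous_ofReal.comp (tn_cont m h)).mul (by fun_prop)
  rw [split_int hh h0 hB _ hc (fun u hu => by rw [tn_out hh hu]; simp)]
  have hd : ∀ u : ℝ, HasDerivAt (fun u : ℝ => cexp (u * s)) (cexp (u * s) * s) u := by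
    intro u
    have h1 : HasDerivAt (fun u : ℝ => (u : ℂ) * s) (1 * s) u :=
      (Complex.ofRealCLM.hasDerivAt (x := u)).mul_const s
    have h2 := h1.cexp
    rwa [one_mul] at h2
  have hid : ∀ u : ℝ, HasDerivAt (fun u : ℝ => (u : ℂ)) 1 u := fun u =>
    Complex.ofRealCLM.hasDerivAt (x := u)
  have e1 : ∫ u in (m - h)..m, (tn m h u : ℂ) * cexp (u * s) =
      (((m : ℂ) - ((m - h : ℝ) : ℂ)) * cexp (m * s) / (h * s) - cexp (m * s) / (h * s ^ 2)) -
      ((((m - h : ℝ) : ℂ) - ((m - h : ℝ) : ℂ)) * cexp ((m - h : ℝ) * s) / (h * s) -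
        cexp ((m - h : ℝ) * s) / (h * s ^ 2)) := by
    rw [intervalIntegral.integral_congr
      (g := fun u : ℝ => (((u : ℂ) - ((m - h : ℝ) : ℂ)) / h) * cexp (u * s))]
    · refine intervalIntegral.integral_eq_sub_of_hasDerivAt
        (f := fun u : ℝ => ((u : ℂ) - ((m - h : ℝ) : ℂ)) * cexp (u * s) / (h * s) -
          cexp (u * s) / (h * s ^ 2)) (fun u _ => ?_)
        ((by fun_prop : Continuous fun u : ℝ =>
          (((u : ℂ) - ((m - h : ℝ) : ℂ)) / h) * cexp (u * s)).intervalIntegrable _ _)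
      have h2 := ((((hid u).sub_const ((m - h : ℝ) : ℂ)).mul (hd u)).div_const (h * s)).sub
        ((hd u).div_const (h * s ^ 2))
      have h3 : (1 * cexp (u * s) + ((u : ℂ) - ((m - h : ℝ) : ℂ)) * (cexp (u * s) * s)) / (h * s) -
          cexp (u * s) * s / (h * s ^ 2) = (((u : ℂ) - ((m - h : ℝ) : ℂ)) / h) * cexp (u * s) := by
        field_simp
        ring
      rw [h3] at h2
      exact h2
    · intro u hu
      rw [uIcc_of_le (by linarith)] at hu
      show (tn m h u : ℂ) * cexp (u * s) = (((u : ℂ) - ((m - h : ℝ) : ℂ)) / h) * cexp (u * s)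
      rw [tn_left hh hu.1 hu.2, ofReal_div, ofReal_sub]
  have e2 : ∫ u in m..(m + h), (tn m h u : ℂ) * cexp (u * s) =
      ((((m + h : ℝ) : ℂ) - ((m + h : ℝ) : ℂ)) * cexp ((m + h : ℝ) * s) / (h * s) +
        cexp ((m + h : ℝ) * s) / (h * s ^ 2)) -
      ((((m + h : ℝ) : ℂ) - (m : ℂ)) * cexp (m * s) / (h * s) + cexp (m * s) / (h * s ^ 2)) := by
    rw [intervalIntegral.integral_congr
      (g := fun u : ℝ => ((((m + h : ℝ) : ℂ) - (u : ℂ)) / h) * cexp (u * s))]
    · refine intervalIntegral.integral_eq_sub_of_hasDerivAt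
        (f := fun u : ℝ => (((m + h : ℝ) : ℂ) - (u : ℂ)) * cexp (u * s) / (h * s) +
          cexp (u * s) / (h * s ^ 2)) (fun u _ => ?_)
        ((by fun_prop : Continuous fun u : ℝ =>
          ((((m + h : ℝ) : ℂ) - (u : ℂ)) / h) * cexp (u * s)).intervalIntegrable _ _)
      have h2 := ((((hid u).const_sub ((m + h : ℝ) : ℂ)).mul (hd u)).div_const (h * s)).add
        ((hd u).div_const (h * s ^ 2))
      have h3 : (-1 * cexp (u * s) + (((m + h : ℝ) : ℂ) - (u : ℂ)) * (cexp (u * s) * s)) / (h * s) +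
          cexp (u * s) * s / (h * s ^ 2) = ((((m + h : ℝ) : ℂ) - (u : ℂ)) / h) * cexp (u * s) := by
        field_simp
        ring
      rw [h3] at h2
      exact h2
    · intro u hu
      rw [uIcc_of_le (by linarith)] at hu
      show (tn m h u : ℂ) * cexp (u * s) = ((((m + h : ℝ) : ℂ) - (u : ℂ)) / h) * cexp (u * s)
      rw [tn_right hh hu.1 hu.2, ofReal_div, ofReal_sub]
  rw [e1, e2]
  push_cast
  field_simp
  ring

/-! ### interchange -/

lemma hs_int (hZ : S_Z1) (t : ℝ) {B K : ℝ} (hB : 0 ≤ B) (Φ : Zr → ℝ → ℂ)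
    (hc : ∀ b, Continuous (Φ b)) (hb : ∀ b : Zr, ∀ u ∈ Ioc 0 B, ‖Φ b u‖ ≤
      K * (mu b * Real.exp (-((b : ℂ).im - t) ^ 2 / 2))) :
    HasSum (fun b => ∫ u in (0 : ℝ)..B, Φ b u) (∫ u in (0 : ℝ)..B, ∑' b, Φ b u) := by
  have := zcount hZ
  have hFi : ∀ b, Integrable (Φ b) (volume.restrict (Ioc 0 B)) := fun b =>
    ((hc b).integrableOn_Icc (a := 0) (b := B)).mono_set Ioc_subset_Icc_self
  have hFn : Summable fun b => ∫ u, ‖Φ b u‖ ∂(volume.restrict (Ioc 0 B)) := by
    refine Summable.of_nonneg_of_le (fun b => integral_nonneg fun u => norm_nonneg _) (fun b => ?_)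
      ((smG hZ t).mul_left (B * K))
    have h1 : ∫ u, ‖Φ b u‖ ∂(volume.restrict (Ioc 0 B)) ≤
        ∫ _u, (K * (mu b * Real.exp (-((b : ℂ).im - t) ^ 2 / 2))) ∂(volume.restrict (Ioc 0 B)) := by
      refine integral_mono_ae (hFi b).norm (integrable_const _) ?_
      filter_upwards [ae_restrict_mem measurableSet_Ioc] with u hu
      exact hb b u hu
    refine h1.trans (le_of_eq ?_)
    rw [integral_const, measureReal_restrict_apply MeasurableSet.univ, univ_inter,
      Real.volume_real_Ioc_of_le hB, smul_eq_mul, sub_zero]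
    ring
  have hsum := hasSum_integral_of_summable_integral_norm hFi hFn
  rw [intervalIntegral.integral_of_le hB]
  have e : (fun b => ∫ u in (0 : ℝ)..B, Φ b u) = fun b => ∫ u, Φ b u ∂(volume.restrict (Ioc 0 B)) := by
    funext b
    rw [intervalIntegral.integral_of_le hB]
  rw [e]
  exact hsum

/-- the tail is summable -/
lemma sm_tail (hZ : S_Z1) (t : ℝ) {U x : ℝ} (hU : 0 ≤ U) (hx : 0 < x) :
    Summable (fun b : Zr => if x < |(b : ℂ).im - t| then
      mu b * Real.exp (U * |(b : ℂ).re|) * Real.exp (-((b : ℂ).im - t) ^ 2 / 2) /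
        ((b : ℂ).im - t) ^ 2 else 0) := by
  refine Summable.of_nonneg_of_le (fun b => ?_) (fun b => ?_)
    ((smQ hZ t hU hx).mul_left 4)
  · have := Pool.Agent.H328.HP.mu_nonneg (b : ℂ)
    split_ifs
    · positivity
    · exact le_rfl
  · have hm := Pool.Agent.H328.HP.mu_nonneg (b : ℂ)
    split_ifs with hlt
    · have hη : 0 < |(b : ℂ).im - t| := hx.trans hlt
      have h1 : (x + |(b : ℂ).im - t|) ^ 2 ≤ 4 * ((b : ℂ).im - t) ^ 2 := by
        rw [← sq_abs ((b : ℂ).im - t)]
        have : x + |(b : ℂ).im - t| ≤ 2 * |(b : ℂ).im - t| := by linarith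
        calc (x + |(b : ℂ).im - t|) ^ 2 ≤ (2 * |(b : ℂ).im - t|) ^ 2 :=
              pow_le_pow_left₀ (by positivity) this 2
          _ = _ := by ring
      have h2 : 0 < ((b : ℂ).im - t) ^ 2 := by
        rw [← sq_abs]
        positivity
      set c := mu b * Real.exp (U * |(b : ℂ).re|) * Real.exp (-((b : ℂ).im - t) ^ 2 / 2) with hc
      have hc0 : 0 ≤ c := by positivity
      rw [← mul_div_assoc, div_le_div_iff₀ h2 (by positivity)]
      nlinarith [mul_le_mul_of_nonneg_left h1 hc0]
    · positivity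

theorem sgb_of (hZ : S_Z1) : S_SGB := by
  refine ⟨10, le_rfl, ?_⟩
  intro T t W W' hT hTt ht2 hW hW' hNS
  have hTp : 0 < T := by linarith
  have hLp : 0 < Real.log T := Real.log_pos (by linarith)
  set L : ℝ := Real.log T with hL
  have hWp : 0 < W := by linarith
  set m : ℝ := 3 * L / 128 with hm
  set h : ℝ := L / (2 * W) with hh
  have hhp : 0 < h := by positivity
  have hh128 : h ≤ L / 128 := by
    rw [hh]
    apply div_le_div_of_nonneg_left hLp.le (by norm_num)
    linarith
  set B : ℝ := L / 16 with hB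
  have hBp : 0 ≤ B := by positivity
  have hm0 : 0 ≤ m - h := by rw [hm]; linarith
  have hmB : m + h ≤ B := by rw [hm, hB]; linarith
  have hmh32 : m + h ≤ L / 32 := by rw [hm]; linarith
  have hmh64 : L / 64 ≤ m - h := by rw [hm]; linarith
  have hpsi : ∀ u, psi T W u = tn m h u := fun u => rfl
  set x : ℝ := W' / L with hx
  have hxp : 0 < x := by positivity
  -- the terms
  set F : Zr → ℝ → ℂ := fun b u => ((tn m h u : ℂ) * cexp (u * ((b : ℂ) - I * t))) *
    ((mu b : ℂ) * gw t b) with hF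
  set FN : Zr → ℝ → ℂ := fun b u => if |(b : ℂ).im - t| ≤ x then F b u else 0 with hFN
  have hFc : ∀ b, Continuous (F b) := fun b =>
    ((continuous_ofReal.comp (tn_cont m h)).mul (by fun_prop)).mul continuous_const
  have hFNc : ∀ b, Continuous (FN b) := by
    intro b
    by_cases hb : |(b : ℂ).im - t| ≤ x
    · have : FN b = F b := by
        funext u
        show (if |(b : ℂ).im - t| ≤ x then F b u else 0) = F b u
        rw [if_pos hb]
      rw [this]
      exact hFc b
    · have : FN b = fun _ => 0 := by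
        funext u
        show (if |(b : ℂ).im - t| ≤ x then F b u else 0) = 0
        rw [if_neg hb]
      rw [this]
      exact continuous_const
  set K : ℝ := Real.exp (B / 2) * Real.exp (1 / 8) with hK
  have hFb : ∀ b : Zr, ∀ u ∈ Ioc 0 B, ‖F b u‖ ≤
      K * (mu b * Real.exp (-((b : ℂ).im - t) ^ 2 / 2)) := by
    intro b u hu
    show ‖((tn m h u : ℂ) * cexp (u * ((b : ℂ) - I * t))) * ((mu b : ℂ) * gw t b)‖ ≤ _
    rw [norm_mul, norm_mul, norm_mul, Complex.norm_real, Complex.norm_real, Real.norm_eq_abs,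
      Real.norm_eq_abs, abs_of_nonneg (Pool.Agent.H328.HP.mu_nonneg _),
      abs_of_nonneg (tn_nonneg _ _ _), Complex.norm_exp]
    have h1 : Real.exp ((u : ℂ) * ((b : ℂ) - I * t)).re ≤ Real.exp (B / 2) := by
      apply Real.exp_le_exp.2
      have h2 : ((u : ℂ) * ((b : ℂ) - I * t)).re = u * (b : ℂ).re := by
        rw [re_ofReal_mul, sub_re]
        simp
      rw [h2]
      have h3 := (abs_lt.1 (re_lt b.2)).2
      have h5 : u * (b : ℂ).re ≤ u * (1 / 2) := mul_le_mul_of_nonneg_left h3.le hu.1.le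
      have h6 := hu.2
      linarith
    have h2 := gw_le t b.2
    have h3 := tn_le (m := m) hhp u
    have h4 := tn_nonneg m h u
    have h5 := Pool.Agent.H328.HP.mu_nonneg (b : ℂ)
    calc tn m h u * Real.exp ((u : ℂ) * ((b : ℂ) - I * t)).re * (mu b * ‖gw t b‖) ≤
        1 * Real.exp (B / 2) * (mu b * (Real.exp (1 / 8) * Real.exp (-((b : ℂ).im - t) ^ 2 / 2))) := by
          gcongr
      _ = _ := by rw [hK]; ring
  have hFNb : ∀ b : Zr, ∀ u ∈ Ioc 0 B, ‖FN b u‖ ≤
      K * (mu b * Real.exp (-((b : ℂ).im - t) ^ 2 / 2)) := by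
    intro b u hu
    show ‖(if |(b : ℂ).im - t| ≤ x then F b u else 0 : ℂ)‖ ≤ _
    split_ifs
    · exact hFb b u hu
    · rw [norm_zero]
      have := Pool.Agent.H328.HP.mu_nonneg (b : ℂ)
      positivity
  have hs1 := hs_int hZ t hBp F hFc hFb
  have hs2 := hs_int hZ t hBp FN hFNc hFNb
  have e1 : ∫ u in (0 : ℝ)..B, ∑' b, F b u = SG T W t := by
    unfold SG
    refine intervalIntegral.integral_congr fun u _ => ?_
    show ∑' b, F b u = (psi T W u : ℂ) * cexp (-(I * u * t)) * G u t
    unfold G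
    rw [← tsum_mul_left]
    refine tsum_congr fun b => ?_
    show ((tn m h u : ℂ) * cexp (u * ((b : ℂ) - I * t))) * ((mu b : ℂ) * gw t b) = _
    have h1 : cexp (u * ((b : ℂ) - I * t)) = cexp (-(I * u * t)) * cexp (u * (b : ℂ)) := by
      rw [← Complex.exp_add]
      congr 1
      ring
    rw [h1, hpsi u]
    ring
  have e2 : ∫ u in (0 : ℝ)..B, ∑' b, FN b u = ∫ u in (0 : ℝ)..B, (tn m h u : ℂ) * NS T W' t u := by
    refine intervalIntegral.integral_congr fun u _ => ?_
    show ∑' b, FN b u = (tn m h u : ℂ) * NS T W' t u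
    unfold NS
    rw [← tsum_mul_left]
    refine tsum_congr fun b => ?_
    show (if |(b : ℂ).im - t| ≤ x then ((tn m h u : ℂ) * cexp (u * ((b : ℂ) - I * t))) *
      ((mu b : ℂ) * gw t b) else 0) = (tn m h u : ℂ) * (if |(b : ℂ).im - t| ≤ x then
        (mu b : ℂ) * cexp (u * ((b : ℂ) - I * t)) * gw t b else 0)
    by_cases hb : |(b : ℂ).im - t| ≤ x
    · rw [if_pos hb, if_pos hb]
      ring
    · rw [if_neg hb, if_neg hb, mul_zero]
  rw [e1] at hs1
  rw [e2] at hs2
  -- near part
  have hnear : ‖∫ u in (0 : ℝ)..B, (tn m h u : ℂ) * NS T W' t u‖ ≤ 30 * h := by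
    have h1 : ‖∫ u in (0 : ℝ)..B, (tn m h u : ℂ) * NS T W' t u‖ ≤
        ∫ u in (0 : ℝ)..B, 30 * tn m h u := by
      refine intervalIntegral.norm_integral_le_of_norm_le hBp ?_
        ((continuous_const.mul (tn_cont m h)).intervalIntegrable _ _)
      refine Filter.Eventually.of_forall fun u _ => ?_
      rw [norm_mul, Complex.norm_real, Real.norm_eq_abs, abs_of_nonneg (tn_nonneg _ _ _)]
      by_cases hu : m - h ≤ u ∧ u ≤ m + h
      · have := hNS u (hmh64.trans hu.1) (hu.2.trans hmh32)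
        nlinarith [tn_nonneg m h u]
      · have hu' : u ≤ m - h ∨ m + h ≤ u := by
          by_contra hcon
          rw [not_or, not_le, not_le] at hcon
          exact hu ⟨hcon.1.le, hcon.2.le⟩
        rw [tn_out hhp hu']
        simp
    rw [intervalIntegral.integral_const_mul, int_tn0 hhp hm0 hmB] at h1
    exact h1
  -- far part
  have hdiff := hs1.sub hs2
  have hterm : ∀ b : Zr, ‖(∫ u in (0 : ℝ)..B, F b u) - ∫ u in (0 : ℝ)..B, FN b u‖ ≤
      10 * (W / L) * (if x < |(b : ℂ).im - t| then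
        mu b * Real.exp (L / 16 * |(b : ℂ).re|) * Real.exp (-((b : ℂ).im - t) ^ 2 / 2) /
          ((b : ℂ).im - t) ^ 2 else 0) := by
    intro b
    by_cases hb : |(b : ℂ).im - t| ≤ x
    · have : FN b = F b := by
        funext u
        show (if |(b : ℂ).im - t| ≤ x then F b u else 0) = F b u
        rw [if_pos hb]
      rw [this, sub_self, norm_zero, if_neg (not_lt.2 hb), mul_zero]
    · have h0 : FN b = fun _ => 0 := by
        funext u
        show (if |(b : ℂ).im - t| ≤ x then F b u else 0) = 0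
        rw [if_neg hb]
      have hlt := not_le.1 hb
      rw [h0, intervalIntegral.integral_zero, sub_zero, if_pos hlt]
      have hη : 0 < |(b : ℂ).im - t| := hxp.trans hlt
      have hη2 : 0 < ((b : ℂ).im - t) ^ 2 := by
        rw [← sq_abs]
        positivity
      set s : ℂ := (b : ℂ) - I * t with hs
      have hsre : s.re = (b : ℂ).re := by rw [hs]; simp
      have hsim : s.im = (b : ℂ).im - t := by rw [hs]; simp
      have hs0 : s ≠ 0 := by
        intro h0
        rw [h0, zero_im] at hsim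
        rw [← hsim, abs_zero] at hη
        exact lt_irrefl _ hη
      have hsn : ((b : ℂ).im - t) ^ 2 ≤ ‖s‖ ^ 2 := by
        rw [← hsim, ← sq_abs s.im]
        exact pow_le_pow_left₀ (abs_nonneg _) (abs_im_le_norm s) 2
      have eF : ∫ u in (0 : ℝ)..B, F b u =
          (cexp ((m - h : ℝ) * s) - 2 * cexp (m * s) + cexp ((m + h : ℝ) * s)) / (h * s ^ 2) *
            ((mu b : ℂ) * gw t b) := by
        show ∫ u in (0 : ℝ)..B, ((tn m h u : ℂ) * cexp (u * ((b : ℂ) - I * t))) *
          ((mu b : ℂ) * gw t b) = _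
        rw [intervalIntegral.integral_mul_const, int_tn hhp hm0 hmB hs0]
      rw [eF, norm_mul, norm_mul, norm_div, norm_mul, norm_pow, Complex.norm_real,
        Complex.norm_real, Real.norm_eq_abs, Real.norm_eq_abs, abs_of_pos hhp,
        abs_of_nonneg (Pool.Agent.H328.HP.mu_nonneg _)]
      have hexp : ∀ r : ℝ, 0 ≤ r → r ≤ m + h → ‖cexp ((r : ℂ) * s)‖ ≤
          Real.exp (L / 16 * |(b : ℂ).re|) := by
        intro r hr0 hr
        rw [Complex.norm_exp]
        apply Real.exp_le_exp.2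
        rw [re_ofReal_mul, hsre]
        calc r * (b : ℂ).re ≤ r * |(b : ℂ).re| := mul_le_mul_of_nonneg_left (le_abs_self _) hr0
          _ ≤ L / 16 * |(b : ℂ).re| :=
            mul_le_mul_of_nonneg_right (hr.trans hmB) (abs_nonneg _)
      have hnum : ‖cexp ((m - h : ℝ) * s) - 2 * cexp (m * s) + cexp ((m + h : ℝ) * s)‖ ≤
          4 * Real.exp (L / 16 * |(b : ℂ).re|) := by
        have a1 := hexp (m - h) hm0 (by linarith)
        have a2 := hexp m (by linarith) (by linarith)
        have a3 := hexp (m + h) (by linarith) le_rfl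
        calc ‖cexp ((m - h : ℝ) * s) - 2 * cexp (m * s) + cexp ((m + h : ℝ) * s)‖ ≤
            ‖cexp ((m - h : ℝ) * s)‖ + ‖2 * cexp (m * s)‖ + ‖cexp ((m + h : ℝ) * s)‖ :=
              (norm_add_le _ _).trans (add_le_add (norm_sub_le _ _) le_rfl)
          _ = ‖cexp ((m - h : ℝ) * s)‖ + 2 * ‖cexp (m * s)‖ + ‖cexp ((m + h : ℝ) * s)‖ := by
              rw [norm_mul, Complex.norm_ofNat]
          _ ≤ _ := by linarith
      have hgw := gw_le t b.2
      have hmu := Pool.Agent.H328.HP.mu_nonneg (b : ℂ)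
      have he8 : Real.exp (1 / 8) ≤ 5 / 4 := by
        have h1 := Real.one_sub_le_exp_neg (1 / 8 : ℝ)
        rw [Real.exp_neg] at h1
        have h2 : 0 < Real.exp (1 / 8 : ℝ) := Real.exp_pos _
        have h3 : (1 - 1 / 8) * Real.exp (1 / 8 : ℝ) ≤ 1 := by
          calc (1 - 1 / 8) * Real.exp (1 / 8 : ℝ) ≤ (Real.exp (1 / 8 : ℝ))⁻¹ * Real.exp (1 / 8 : ℝ) :=
                mul_le_mul_of_nonneg_right h1 h2.le
            _ = 1 := inv_mul_cancel₀ h2.ne'
        linarith
      calc ‖cexp ((m - h : ℝ) * s) - 2 * cexp (m * s) + cexp ((m + h : ℝ) * s)‖ /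
            (h * ‖s‖ ^ 2) * (mu b * ‖gw t b‖) ≤
          4 * Real.exp (L / 16 * |(b : ℂ).re|) / (h * ((b : ℂ).im - t) ^ 2) *
            (mu b * (5 / 4 * Real.exp (-((b : ℂ).im - t) ^ 2 / 2))) := by
            have hgw' : ‖gw t b‖ ≤ 5 / 4 * Real.exp (-((b : ℂ).im - t) ^ 2 / 2) :=
              hgw.trans (mul_le_mul_of_nonneg_right he8 (Real.exp_pos _).le)
            gcongr
        _ = _ := by
            rw [hh]
            field_simp
            ring
  have hfar : ‖SG T W t - ∫ u in (0 : ℝ)..B, (tn m h u : ℂ) * NS T W' t u‖ ≤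
      10 * (W / L) * TL T W' t := by
    have hsum := (sm_tail hZ t (U := L / 16) (x := x) (by positivity) hxp).hasSum.mul_left
      (10 * (W / L))
    rw [← hdiff.tsum_eq]
    exact tsum_of_norm_bounded hsum hterm
  calc ‖SG T W t‖ = ‖(∫ u in (0 : ℝ)..B, (tn m h u : ℂ) * NS T W' t u) +
        (SG T W t - ∫ u in (0 : ℝ)..B, (tn m h u : ℂ) * NS T W' t u)‖ := by
        rw [add_sub_cancel]
    _ ≤ _ + _ := norm_add_le _ _
    _ ≤ 30 * h + 10 * (W / L) * TL T W' t := add_le_add hnear hfar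
    _ = 15 * (L / W) + 10 * (W / L) * TL T W' t := by
        rw [hh]
        ring

theorem sgb : S_SGB := sgb_of z1

end Pool.Agent.H657.HN
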